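import Pool.Agent.H67.AT.Targets
import Pool.Agent.H67.AT.Ser

/-!
# RCF: the potential of the root for one block
-/

set_option autoImplicit false

open Finset PowerSeries

namespace Pool.Agent.H90.HAT

open Pool.Agent.H67.AT

lemma pow_nn {X : Type} [Fintype X] [DecidableEq X] (P : Matrix X X ℝ) (hP : ∀ x z, 0 ≤ P x z)
    (n : ℕ) (x z : X) : 0 ≤ (P ^ n) x z := by
  induction n generalizing x z with
  | zero => rw [pow_zero, Matrix.one_apply]; split <;> norm_num
  | succ n ih =>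
    rw [pow_succ, Matrix.mul_apply]
    exact Finset.sum_nonneg fun w _ => mul_nonneg (ih x w) (hP w z)

lemma wo_nn {Y : Type} (v : Y → ℝ) (hv : ∀ y, 0 ≤ v y) (o : Option Y) : 0 ≤ wo v o := by
  cases o with
  | none => exact le_rfl
  | some y => exact hv y

theorem pf_RCF (hQRC : T_QRC) (hFST : T_FST) (hSND : T_SND) (hTOT : T_TOT) (hRTG : T_RTG)
    (hRTU : T_RTU) : T_RCF := by
  intro X E Y _ _ _ _ _ _ G k L m g β κ good f hk hβ hg hκ hf hG hS l A B
  have hlL : (l : ℕ) ≤ L := Nat.lt_succ_iff.1 l.2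
  set v : Y → ℝ := rtl G k good β l A B with hvd
  have hv0 : ∀ y, 0 ≤ v y := fun y => (hRTU X E Y G k good β l A B y hβ).2.2.1
  have hvs : ∑ y, v y ≤ k * g := hRTG X E Y G k L g β good hk hg hβ hG l hlL A B
  set τ : Idx X L := some (l, A, B) with hτ
  set a : E → DS := es G k good β f τ with had
  set mk : ℕ → X → X → DS := mks τ with hmkd
  have hmkv : ∀ l' x x', mk l' x x' = if l' = l ∧ x = A ∧ x' = B then eps else 0 := fun _ _ _ => rfl
  have hmk1 : ∀ l' x x', (mk l' x x').fst = 0 := by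
    intro l' x x'
    rw [hmkv]
    split <;> rfl
  have hav : ∀ e, a e = lin (wo v (G.lt e)) := fun e => rfl
  have haf : ∀ e, (a e).fst = (lin (wo v (G.lt e))).fst := fun e => rfl
  have has : ∀ e, (a e).snd = 0 := fun e => by rw [hav]; exact snd_lin _
  have haN : ∀ e, DNn (a e) := fun e => by rw [hav]; exact DNn.lin (wo_nn v hv0 _)
  have hmkN : ∀ l' x x', DNn (mk l' x x') := by
    intro l' x x'
    rw [hmkv]
    split
    · exact DNn.eps
    · exact DNn.zero
  set W : Matrix X X ℝ := (2 : ℝ) ^ (L + 1) • ∑ y, v y • Mm G y with hW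
  set T : Matrix X X PS := linm G.P W with hT
  have hF := hFST X E Y G k a mk v hv0 hmk1 haf L
  obtain ⟨q1, q2, q3, q4⟩ := hQRC X E Y G k a mk hmk1
  have hPn : ∀ n x z, 0 ≤ (G.P ^ n) x z := pow_nn G.P hS.nn
  set p : ℝ := (G.P ^ k ^ (l : ℕ)) A B with hp
  have hp0 : 0 ≤ p := hPn _ _ _
  -- levels below the marked one
  have hz : ∀ l' : ℕ, l' < l → qS G k a mk l' = 0 := by
    intro l'
    induction l' with
    | zero =>
      intro h0
      ext1 x x'
      rw [q3]
      have e1 : mk 0 x x' = 0 := by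
        rw [hmkv, if_neg]
        rintro ⟨h, -⟩
        omega
      rw [e1]
      simp [has]
    | succ l' ih =>
      intro h0
      ext1 x x'
      rw [q4, ih (by omega)]
      have e1 : mk (l' + 1) x x' = 0 := by
        rw [hmkv, if_neg]
        rintro ⟨h, -⟩
        omega
      rw [e1]
      simp
  set B0 : Matrix X X PS := Matrix.of fun x z => if x = A ∧ z = B then PowerSeries.C p else 0
    with hB0
  have hmark : ∀ x x', (G.P ^ k ^ (l : ℕ)) x x' • (mk l x x').snd = B0 x x' := by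
    intro x x'
    rw [hmkv, hB0]
    simp only [Matrix.of_apply]
    by_cases hx : x = A ∧ x' = B
    · rw [if_pos (by simpa using hx), if_pos hx, hx.1, hx.2, snd_eps, hp, PowerSeries.smul_eq_C_mul, mul_one]
    · rw [if_neg (by simpa using hx), if_neg hx]
      simp
  have hl0 : qS G k a mk l = B0 := by
    ext1 x x'
    rw [← hmark]
    rcases Nat.eq_zero_or_pos (l : ℕ) with h0 | h0
    · rw [h0, q3]
      simp [has]
    · obtain ⟨l', hl'⟩ : ∃ l', (l : ℕ) = l' + 1 := ⟨(l : ℕ) - 1, by omega⟩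
      have := q4 l' x x'
      rw [hz l' (by omega)] at this
      rw [hl', this]
      simp
  have hWn : ∀ x z, 0 ≤ W x z := by
    intro x z
    rw [hW, Matrix.smul_apply, Matrix.sum_apply]
    refine mul_nonneg (by positivity) (Finset.sum_nonneg fun y _ => ?_)
    rw [Matrix.smul_apply]
    exact mul_nonneg (hv0 y) (hS.mnn y x z)
  have hTn : MNn T := MNn.linm hS.nn hWn
  have hB0n : MNn B0 := by
    intro x z
    rw [hB0]
    simp only [Matrix.of_apply]
    split
    · exact PNn.C hp0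
    · exact PNn.zero
  set d : ℕ := L - l with hd
  have hld : (l : ℕ) + d = L := by omega
  have hsnd := hSND X E Y G k a mk T B0 l L haN hmkN hmk1 (by
      intro l' hl' x x'
      rw [hmkv, if_neg]
      rintro ⟨h, -⟩
      omega) hTn hB0n (fun l' hl' => (hF l' hl').2) (by rw [hl0]; exact MLe.refl _) d hld.le
  rw [hld] at hsnd
  -- the constants of TOT
  set c : ℝ := (2 : ℝ) ^ (L + 1) * κ * (k * g) with hc
  have hk0 : (0 : ℝ) ≤ k := Nat.cast_nonneg k
  have hc0 : 0 ≤ c := by positivity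
  have hvκ : ∀ (u : Y → ℝ), (∀ y, u y ≤ κ) → (2 : ℝ) ^ (L + 1) * ∑ y, v y * u y ≤ c := by
    intro u hu
    have h1 : ∑ y, v y * u y ≤ ∑ y, v y * κ :=
      Finset.sum_le_sum fun y _ => mul_le_mul_of_nonneg_left (hu y) (hv0 y)
    have h2 : ∑ y, v y * κ ≤ k * g * κ := by
      rw [← Finset.sum_mul]
      exact mul_le_mul_of_nonneg_right hvs hκ
    calc (2 : ℝ) ^ (L + 1) * ∑ y, v y * u y ≤ (2 : ℝ) ^ (L + 1) * (k * g * κ) :=
          mul_le_mul_of_nonneg_left (h1.trans h2) (by positivity)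
      _ = c := by rw [hc]; ring
  have hup : ∀ x, ∑ t ∈ range (k ^ L), ∑ z, (G.P ^ t * W) x z ≤ c := by
    intro x
    have e1 : ∀ t z, (G.P ^ t * W) x z = (2 : ℝ) ^ (L + 1) * ∑ y, v y * (G.P ^ t * Mm G y) x z := by
      intro t z
      rw [hW, Matrix.mul_smul, Matrix.mul_sum, Matrix.smul_apply, Matrix.sum_apply, smul_eq_mul]
      congr 1
      refine Finset.sum_congr rfl fun y _ => ?_
      rw [Matrix.mul_smul, Matrix.smul_apply, smul_eq_mul]
    have e2 : ∑ t ∈ range (k ^ L), ∑ z, (G.P ^ t * W) x z =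
        (2 : ℝ) ^ (L + 1) * ∑ y, v y * ∑ t ∈ range (k ^ L), ∑ z, (G.P ^ t * Mm G y) x z := by
      simp_rw [e1, ← Finset.mul_sum]
      congr 1
      simp_rw [Finset.mul_sum]
      rw [Finset.sum_comm (s := univ (α := Y))]
      refine Finset.sum_congr rfl fun t _ => ?_
      rw [Finset.sum_comm]
    rw [e2]
    exact hvκ _ fun y => hS.up x y
  have hum : ∀ z, ∑ t ∈ range (k ^ L), ∑ x, (W * G.P ^ t) x z ≤ c := by
    intro z
    have e1 : ∀ t x, (W * G.P ^ t) x z = (2 : ℝ) ^ (L + 1) * ∑ y, v y * (Mm G y * G.P ^ t) x z := by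
      intro t x
      rw [hW, Matrix.smul_mul, Matrix.sum_mul, Matrix.smul_apply, Matrix.sum_apply, smul_eq_mul]
      congr 1
      refine Finset.sum_congr rfl fun y _ => ?_
      rw [Matrix.smul_mul, Matrix.smul_apply, smul_eq_mul]
    have e2 : ∑ t ∈ range (k ^ L), ∑ x, (W * G.P ^ t) x z =
        (2 : ℝ) ^ (L + 1) * ∑ y, v y * ∑ t ∈ range (k ^ L), ∑ x, (Mm G y * G.P ^ t) x z := by
      simp_rw [e1, ← Finset.mul_sum]
      congr 1
      simp_rw [Finset.mul_sum]
      rw [Finset.sum_comm (s := univ (α := Y))]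
      refine Finset.sum_congr rfl fun t _ => ?_
      rw [Finset.sum_comm]
    rw [e2]
    exact hvκ _ fun y => hS.um z y
  have hkpow : k ^ (l : ℕ) * k ^ d = k ^ L := by rw [← pow_add, hld]
  have hterm : ∀ i ∈ range (k ^ d), ∑ x, ∑ x', coeff m ((T ^ (i * k ^ (l : ℕ)) * B0 *
      T ^ ((k ^ d - 1 - i) * k ^ (l : ℕ))) x x') ≤ (m + 1) * c ^ m * p := by
    intro i hi
    have hi' : i < k ^ d := Finset.mem_range.1 hi
    refine hTOT X G.P W (k ^ L) c hc0 hS.nn hWn hS.row hS.col hup hum _ ?_ _ ?_ A B p m hp0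
    · calc i * k ^ (l : ℕ) ≤ k ^ d * k ^ (l : ℕ) := Nat.mul_le_mul_right _ hi'.le
        _ = k ^ L := by rw [mul_comm, hkpow]
    · calc (k ^ d - 1 - i) * k ^ (l : ℕ) ≤ k ^ d * k ^ (l : ℕ) :=
            Nat.mul_le_mul_right _ (by omega)
        _ = k ^ L := by rw [mul_comm, hkpow]
  have hmain : ∑ x, ∑ x', coeff m (qS G k a mk L x x') ≤
      (2 : ℝ) ^ d * ((k : ℝ) ^ d * ((m + 1) * c ^ m * p)) := by
    calc ∑ x, ∑ x', coeff m (qS G k a mk L x x')
        ≤ ∑ x, ∑ x', coeff m (((2 : ℝ) ^ d • ∑ i ∈ range (k ^ d), T ^ (i * k ^ (l : ℕ)) * B0 *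
            T ^ ((k ^ d - 1 - i) * k ^ (l : ℕ))) x x') :=
          Finset.sum_le_sum fun x _ => Finset.sum_le_sum fun x' _ => hsnd x x' m
      _ = (2 : ℝ) ^ d * ∑ i ∈ range (k ^ d), ∑ x, ∑ x', coeff m ((T ^ (i * k ^ (l : ℕ)) * B0 *
            T ^ ((k ^ d - 1 - i) * k ^ (l : ℕ))) x x') := by
          have e1 : ∀ x x', coeff m (((2 : ℝ) ^ d • ∑ i ∈ range (k ^ d), T ^ (i * k ^ (l : ℕ)) *
              B0 * T ^ ((k ^ d - 1 - i) * k ^ (l : ℕ))) x x') =
              (2 : ℝ) ^ d * ∑ i ∈ range (k ^ d), coeff m ((T ^ (i * k ^ (l : ℕ)) * B0 *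
                T ^ ((k ^ d - 1 - i) * k ^ (l : ℕ))) x x') := by
            intro x x'
            rw [Matrix.smul_apply, Matrix.sum_apply, map_smul, map_sum, smul_eq_mul]
          simp_rw [e1, ← Finset.mul_sum]
          congr 1
          rw [Finset.sum_comm (s := range (k ^ d))]
          refine Finset.sum_congr rfl fun x _ => ?_
          rw [Finset.sum_comm]
      _ ≤ (2 : ℝ) ^ d * ∑ i ∈ range (k ^ d), ((m + 1) * c ^ m * p) :=
          mul_le_mul_of_nonneg_left (Finset.sum_le_sum hterm) (by positivity)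
      _ = _ := by
          rw [Finset.sum_const, card_range, nsmul_eq_mul]
          push_cast
          ring
  calc ∑ x, ∑ x', (G.P ^ k ^ L) x x' * coeff m (qq G k good β f τ L x x').snd
      = ∑ x, ∑ x', coeff m (qS G k a mk L x x') := by
        refine Finset.sum_congr rfl fun x _ => Finset.sum_congr rfl fun x' _ => ?_
        unfold qS
        rw [Matrix.of_apply, map_smul, smul_eq_mul]
        rfl
    _ ≤ (2 : ℝ) ^ d * ((k : ℝ) ^ d * ((m + 1) * c ^ m * p)) := hmain
    _ ≤ (2 : ℝ) ^ L * ((k : ℝ) ^ L * ((m + 1) * c ^ m * p)) := by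
        have hk1 : (1 : ℝ) ≤ k := by exact_mod_cast hk
        have h1 : (2 : ℝ) ^ d ≤ (2 : ℝ) ^ L := pow_le_pow_right₀ (by norm_num) (by omega)
        have h2 : (k : ℝ) ^ d ≤ (k : ℝ) ^ L := pow_le_pow_right₀ hk1 (by omega)
        have h3 : 0 ≤ (m + 1) * c ^ m * p := by positivity
        exact mul_le_mul h1 (mul_le_mul_of_nonneg_right h2 h3) (by positivity) (by positivity)
    _ = _ := by ring

end Pool.Agent.H90.HAT
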